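import Pool.Agent.Y899.KP.Main

set_option autoImplicit false

open Pool.Agent.Y899.KP

/-- Question Q1 for every number of planes: for all `s ≥ 1` and all `q`, the `s`-planar crossing
number of `K_{3s,q}` is `s ⌊q/(6s-4)⌋ (q - (3s-2)(⌊q/(6s-4)⌋ + 1))`. The case `s = 2` is
`cr₂(K_{6,q}) = f₆(q)`. -/
theorem Pool.Agent.Results.MP_d3b8e5_co.ThreeTimesPlanes.result :
    ∀ s q : ℕ, 1 ≤ s →
      (kcr s (completeBipartiteGraph (Fin (3 * s)) (Fin q)) : ℤ) =
        s * ((q / (6 * s - 4) : ℕ) : ℤ) *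
          (q - (3 * s - 2) * (((q / (6 * s - 4) : ℕ) : ℤ) + 1)) :=
  three
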